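import Pool.Agent.ABY.Stmts

/-!
# Block Y of AND2B, row VGR: the gradient of the virtual vector
-/

set_option autoImplicit false

open scoped BigOperators Matrix

noncomputable section

namespace Pool.Agent.ABY.H19

open Pool.Agent.LE.QF Pool.Agent.AFJ Pool.Agent.ABY

variable {X : Type} [Fintype X] [DecidableEq X] {G : Matrix X X ℂ} {κ P w g : X → ℝ}
  {μ : X → ℂ} {b U R : Finset X} {c₀ C₀ κv μs Λ : ℝ}

omit [DecidableEq X] in
/-- the Ward identity on the diagonal -/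
theorem ward (H : Net G κ) (a : X) : ∑ y, κ y * KK G a y = (G a a).im := by
  have h := H.hw a a
  have h1 : ∀ y, (κ y : ℂ) * (G a y * (starRingEnd ℂ) (G a y)) = ((κ y * KK G a y : ℝ) : ℂ) := by
    intro y
    rw [Complex.mul_conj, Complex.normSq_eq_norm_sq]
    unfold KK
    push_cast
    ring
  rw [Finset.sum_congr rfl fun y _ => h1 y, ← Complex.ofReal_sum] at h
  exact Complex.ofReal_injective h

omit [Fintype X] [DecidableEq X] in
theorem kk_nonneg (a y : X) : 0 ≤ KK G a y := sq_nonneg _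

theorem cmp_of (H : YBl G κ P w g μ b U R c₀ C₀ κv μs Λ) {𝕜 : Type} [RCLike 𝕜]
    (M : Matrix X X 𝕜) (hM : ∀ a y, ‖M a y‖ ≤ KK G a y) : Cmp M (KK G) P g U R (3 / 4) := by
  refine ⟨hM, ⟨H.hP.1, H.hP.2.1⟩, H.hb.2, fun a ha => H.hc.1.trans_le (H.hg a ha).1,
    ⟨by norm_num, by norm_num⟩, ?_⟩
  intro a ha
  have h1 : ∑ y, KK G a y * P y * g y ≤ ∑ y, (1 / 2) * (κ y * KK G a y) := by
    refine Finset.sum_le_sum fun y _ => ?_
    by_cases hy : y ∈ U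
    · have h2 := H.hP.2.2 y hy
      have h3 : 0 ≤ KK G a y := kk_nonneg a y
      nlinarith
    · rw [H.hP.2.1 y hy, mul_zero, zero_mul]
      have h3 : 0 ≤ KK G a y := kk_nonneg a y
      have h4 := H.net.hκ y
      positivity
  rw [← Finset.mul_sum, ward H.net a] at h1
  have h5 := (H.hg a ha).2.2
  linarith

theorem vir_bound (hV : VexStmt) (hC : CmpStmt) (H : YBl G κ P w g μ b U R c₀ C₀ κv μs Λ)
    {𝕜 : Type} [RCLike 𝕜] (M : Matrix X X 𝕜) (hM : ∀ a y, ‖M a y‖ ≤ KK G a y) (a : X)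
    (ha : a ∈ R) : ‖vir M P w a‖ ≤ 6 * g a := by
  have hc := cmp_of H M hM
  obtain ⟨-, -, -, h4, -⟩ := hV hC 𝕜 X M (KK G) P g U R (3 / 4) hc
  have h5 := h4 (M *ᵥ fun x => ((w x : ℝ) : 𝕜)) (3 / 2) (by norm_num) (fun a ha => by
    rw [Matrix.mulVec, dotProduct]
    calc ‖∑ y, M a y * ((w y : ℝ) : 𝕜)‖ ≤ ∑ y, ‖M a y * ((w y : ℝ) : 𝕜)‖ := norm_sum_le _ _
      _ ≤ ∑ y, κ y * KK G a y := by
          refine Finset.sum_le_sum fun y _ => ?_
          rw [norm_mul, RCLike.norm_ofReal, abs_of_nonneg (H.hw.1 y).1]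
          calc ‖M a y‖ * w y ≤ KK G a y * κ y :=
                mul_le_mul (hM a y) (H.hw.1 y).2 (H.hw.1 y).1 (kk_nonneg a y)
            _ = κ y * KK G a y := mul_comm _ _
      _ = (G a a).im := ward H.net a
      _ ≤ 3 / 2 * g a := (H.hg a ha).2.2) a ha
  have h6 : vir M P w a = (TT M P *ᵥ (M *ᵥ fun x => ((w x : ℝ) : 𝕜))) a := rfl
  rw [h6]
  refine h5.trans (le_of_eq ?_)
  ring

theorem psi_bound (hV : VexStmt) (hC : CmpStmt) (H : YBl G κ P w g μ b U R c₀ C₀ κv μs Λ)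
    {𝕜 : Type} [RCLike 𝕜] (M : Matrix X X 𝕜) (hM : ∀ a y, ‖M a y‖ ≤ KK G a y) (y : X) :
    ‖psi P w (vir M P w) y‖ ≤ 4 * κ y := by
  unfold psi
  have hw := H.hw.1 y
  have hP := H.hP.1 y
  have h1 : ‖((w y : ℝ) : 𝕜) + ((P y : ℝ) : 𝕜) * vir M P w y‖ ≤ w y + P y * ‖vir M P w y‖ := by
    refine (norm_add_le _ _).trans ?_
    rw [norm_mul, RCLike.norm_ofReal, RCLike.norm_ofReal, abs_of_nonneg hw.1, abs_of_nonneg hP]
  refine h1.trans ?_
  by_cases hy : y ∈ U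
  · have h2 := vir_bound hV hC H M hM y (H.hb.2 hy)
    have h3 := mul_le_mul_of_nonneg_left h2 hP
    have h4 := H.hP.2.2 y hy
    linarith [hw.2]
  · rw [H.hP.2.1 y hy, zero_mul, add_zero]
    have := H.net.hκ y
    linarith [hw.2]

/-- the main estimate -/
theorem main (H : YBl G κ P w g μ b U R c₀ C₀ κv μs Λ) (z : X) (hz : z ∈ R) (ψ p : X → ℂ)
    (hψ : ∀ y, ‖ψ y‖ ≤ 4 * κ y) (hp : ∀ y, ‖p y‖ ^ 2 = KK G z y) :
    ∑ c ∈ b, ‖G z c‖ ^ 2 * ‖∑ y, G c y * (ψ y * p y)‖ ^ 2 ≤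
      30 * C₀ ^ 2 * Real.sqrt (Λ / κv) := by
  obtain ⟨hc0, hc01, hC0, hκv, hκv1, hμs, hΛ0⟩ := H.hc
  set m : X → ℂ := fun c => ∑ y, G c y * (ψ y * p y) with hm
  -- pointwise bound
  have hpt : ∀ c ∈ b, ‖m c‖ ^ 2 ≤ (6 * C₀) ^ 2 := by
    intro c hc
    have hcR : c ∈ R := H.hb.2 (H.hb.1 hc)
    have h1 : ‖m c‖ ≤ ∑ y, (4 * (κ y * (‖G c y‖ * ‖p y‖))) := by
      refine (norm_sum_le _ _).trans (Finset.sum_le_sum fun y _ => ?_)
      rw [norm_mul, norm_mul]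
      have h2 := mul_le_mul_of_nonneg_right (hψ y)
        (mul_nonneg (norm_nonneg (G c y)) (norm_nonneg (p y)))
      linarith
    have h3 : (∑ y, κ y * (‖G c y‖ * ‖p y‖)) ^ 2 ≤
        (∑ y, κ y * ‖G c y‖ ^ 2) * ∑ y, κ y * ‖p y‖ ^ 2 := by
      refine Finset.sum_sq_le_sum_mul_sum_of_sq_le_mul _
        (fun y _ => mul_nonneg (H.net.hκ y).le (sq_nonneg _))
        (fun y _ => mul_nonneg (H.net.hκ y).le (sq_nonneg _)) fun y _ => le_of_eq (by ring)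
    have h4 : ∑ y, κ y * ‖G c y‖ ^ 2 = (G c c).im := ward H.net c
    have h5 : ∑ y, κ y * ‖p y‖ ^ 2 = (G z z).im := by
      rw [← ward H.net z]
      exact Finset.sum_congr rfl fun y _ => by rw [hp y]
    rw [h4, h5] at h3
    have h6 : (G c c).im ≤ 3 / 2 * C₀ := by
      have := H.hg c hcR
      linarith
    have h7 : (G z z).im ≤ 3 / 2 * C₀ := by
      have := H.hg z hz
      linarith
    have h8 : 0 ≤ (G z z).im := by
      rw [← h5]
      exact Finset.sum_nonneg fun y _ => mul_nonneg (H.net.hκ y).le (sq_nonneg _)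
    have h9 : (∑ y, κ y * (‖G c y‖ * ‖p y‖)) ^ 2 ≤ (3 / 2 * C₀) ^ 2 := by
      refine h3.trans ?_
      calc (G c c).im * (G z z).im ≤ (3 / 2 * C₀) * (3 / 2 * C₀) :=
            mul_le_mul h6 h7 h8 (by positivity)
        _ = (3 / 2 * C₀) ^ 2 := by ring
    have h10 : ∑ y, κ y * (‖G c y‖ * ‖p y‖) ≤ 3 / 2 * C₀ := by
      exact (abs_le_of_sq_le_sq' h9 (by positivity)).2
    rw [← Finset.mul_sum] at h1
    exact pow_le_pow_left₀ (norm_nonneg _) (by linarith) 2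
  -- the weighted sum
  have hsum : ∑ c ∈ b, ‖m c‖ ^ 2 ≤ 24 * C₀ / κv := by
    have h1 := H.net.hn fun y => ψ y * p y / (κ y : ℂ)
    have h2 : ∀ x, ∑ y, G x y * ((κ y : ℂ) * (ψ y * p y / (κ y : ℂ))) = m x := by
      intro x
      refine Finset.sum_congr rfl fun y _ => ?_
      have h3 : (κ y : ℂ) ≠ 0 := by exact_mod_cast (H.net.hκ y).ne'
      rw [mul_div_cancel₀ _ h3]
    simp only [h2] at h1
    have h4 : ∑ x, κ x * ‖ψ x * p x / (κ x : ℂ)‖ ^ 2 ≤ 24 * C₀ := by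
      calc ∑ x, κ x * ‖ψ x * p x / (κ x : ℂ)‖ ^ 2 ≤ ∑ x, 16 * (κ x * KK G z x) := by
            refine Finset.sum_le_sum fun x _ => ?_
            have hκx := H.net.hκ x
            rw [norm_div, norm_mul, Complex.norm_real, Real.norm_of_nonneg hκx.le, div_pow,
              mul_pow, hp x]
            have h5 : ‖ψ x‖ ^ 2 ≤ (4 * κ x) ^ 2 := pow_le_pow_left₀ (norm_nonneg _) (hψ x) 2
            have h6 := kk_nonneg (G := G) z x
            rw [mul_div_assoc', div_le_iff₀ (by positivity)]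
            have h7 : κ x * (‖ψ x‖ ^ 2 * KK G z x) ≤ κ x * ((4 * κ x) ^ 2 * KK G z x) :=
              mul_le_mul_of_nonneg_left (mul_le_mul_of_nonneg_right h5 h6) hκx.le
            refine h7.trans (le_of_eq (by ring))
        _ = 16 * (G z z).im := by rw [← Finset.mul_sum, ward H.net z]
        _ ≤ 24 * C₀ := by
            have := H.hg z hz
            linarith
    have h8 : κv * ∑ c ∈ b, ‖m c‖ ^ 2 ≤ ∑ x, κ x * ‖m x‖ ^ 2 := by
      rw [Finset.mul_sum]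
      calc ∑ c ∈ b, κv * ‖m c‖ ^ 2 ≤ ∑ c ∈ b, κ c * ‖m c‖ ^ 2 :=
            Finset.sum_le_sum fun c hc => mul_le_mul_of_nonneg_right (H.hv c hc) (sq_nonneg _)
        _ ≤ ∑ x, κ x * ‖m x‖ ^ 2 :=
            Finset.sum_le_sum_of_subset_of_nonneg (Finset.subset_univ _) fun x _ _ =>
              mul_nonneg (H.net.hκ x).le (sq_nonneg _)
    rw [le_div_iff₀ hκv]
    linarith
  have h4th : ∑ c ∈ b, (‖m c‖ ^ 2) ^ 2 ≤ (6 * C₀) ^ 2 * (24 * C₀ / κv) := by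
    calc ∑ c ∈ b, (‖m c‖ ^ 2) ^ 2 ≤ ∑ c ∈ b, (6 * C₀) ^ 2 * ‖m c‖ ^ 2 := by
          refine Finset.sum_le_sum fun c hc => ?_
          rw [pow_two (‖m c‖ ^ 2)]
          exact mul_le_mul_of_nonneg_right (hpt c hc) (sq_nonneg _)
      _ = (6 * C₀) ^ 2 * ∑ c ∈ b, ‖m c‖ ^ 2 := by rw [Finset.mul_sum]
      _ ≤ _ := mul_le_mul_of_nonneg_left hsum (sq_nonneg _)
  have hcs : (∑ c ∈ b, ‖G z c‖ ^ 2 * ‖m c‖ ^ 2) ^ 2 ≤
      (30 * C₀ ^ 2 * Real.sqrt (Λ / κv)) ^ 2 := by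
    have h1 := Finset.sum_mul_sq_le_sq_mul_sq b (fun c => ‖G z c‖ ^ 2) (fun c => ‖m c‖ ^ 2)
    have h2 : ∑ c ∈ b, (‖G z c‖ ^ 2) ^ 2 ≤ Λ := H.hΛ z hz
    have h3 : (∑ c ∈ b, (‖G z c‖ ^ 2) ^ 2) * ∑ c ∈ b, (‖m c‖ ^ 2) ^ 2 ≤
        Λ * ((6 * C₀) ^ 2 * (24 * C₀ / κv)) :=
      mul_le_mul h2 h4th (Finset.sum_nonneg fun c _ => sq_nonneg _) hΛ0
    refine h1.trans (h3.trans ?_)
    have h5 : Λ * ((6 * C₀) ^ 2 * (24 * C₀ / κv)) = (864 * C₀ ^ 3) * (Λ / κv) := by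
      ring
    have h5' : (30 * C₀ ^ 2 * Real.sqrt (Λ / κv)) ^ 2 = 30 ^ 2 * (C₀ ^ 2) ^ 2 * (Λ / κv) := by
      rw [mul_pow, mul_pow, Real.sq_sqrt (div_nonneg hΛ0 hκv.le)]
    have h6 : 864 * C₀ ^ 3 ≤ 30 ^ 2 * (C₀ ^ 2) ^ 2 := by
      have h7 : C₀ ^ 3 ≤ C₀ ^ 4 := pow_le_pow_right₀ hC0 (by norm_num)
      have h8 : 0 ≤ C₀ ^ 4 := by positivity
      have h9 : (C₀ ^ 2) ^ 2 = C₀ ^ 4 := by ring
      rw [h9]
      linarith
    rw [h5, h5']
    exact mul_le_mul_of_nonneg_right h6 (div_nonneg hΛ0 hκv.le)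
  refine abs_le_of_sq_le_sq' hcs ?_ |>.2
  positivity

theorem vgr : VgrStmt := by
  intro hC hV hT c₀ C₀
  refine ⟨1 + 1920 * C₀ ^ 4 / c₀ ^ 2, ?_, ?_⟩
  · have : 0 ≤ 1920 * C₀ ^ 4 / c₀ ^ 2 := by positivity
    linarith
  intro X _ _ G κ P w g μ b U R κv μs Λ H
  obtain ⟨hc0, hc01, hC0, hκv, hκv1, hμs, hΛ0⟩ := H.hc
  have hMB : ∀ a y, ‖BB G a y‖ ≤ KK G a y := by
    intro a y
    unfold BB KK
    rw [norm_pow]
  have hMK : ∀ a y, ‖KK G a y‖ ≤ KK G a y := by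
    intro a y
    rw [Real.norm_of_nonneg (kk_nonneg a y)]
  have hcB := cmp_of H (BB G) hMB
  have hcK := cmp_of H (KK G) hMK
  have hψB := psi_bound hV hC H (BB G) hMB
  have hψK := psi_bound hV hC H (KK G) hMK
  have hS0 : 0 ≤ Real.sqrt (Λ / κv) := Real.sqrt_nonneg _
  set V : ℝ := Real.sqrt (120 * C₀ ^ 2 * Real.sqrt (Λ / κv)) / c₀ with hVdef
  have hV0 : 0 ≤ V := by positivity
  have hVsq : V ^ 2 = 120 * C₀ ^ 2 * Real.sqrt (Λ / κv) / c₀ ^ 2 := by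
    rw [hVdef, div_pow, Real.sq_sqrt (by positivity)]
  have hVg : ∀ a ∈ R, 120 * C₀ ^ 2 * Real.sqrt (Λ / κv) ≤ (V * g a) ^ 2 := by
    intro a ha
    rw [mul_pow, hVsq]
    have h1 : c₀ ^ 2 ≤ g a ^ 2 := pow_le_pow_left₀ hc0.le (H.hg a ha).1 2
    rw [div_mul_eq_mul_div, le_div_iff₀ (by positivity)]
    exact mul_le_mul_of_nonneg_left h1 (by positivity)
  have hfin : ∀ a ∈ R, (V / (1 - 3 / 4) * g a) ^ 2 ≤
      (1 + 1920 * C₀ ^ 4 / c₀ ^ 2) * Real.sqrt (Λ / κv) := by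
    intro a ha
    have h1 : g a ^ 2 ≤ C₀ ^ 2 :=
      pow_le_pow_left₀ (hc0.le.trans (H.hg a ha).1) (H.hg a ha).2.1 2
    have h2 : (V / (1 - 3 / 4) * g a) ^ 2 = 16 * V ^ 2 * g a ^ 2 := by ring
    rw [h2]
    calc 16 * V ^ 2 * g a ^ 2 ≤ 16 * V ^ 2 * C₀ ^ 2 :=
          mul_le_mul_of_nonneg_left h1 (by positivity)
      _ = 1920 * C₀ ^ 4 / c₀ ^ 2 * Real.sqrt (Λ / κv) := by
          rw [hVsq]
          ring
      _ ≤ (1 + 1920 * C₀ ^ 4 / c₀ ^ 2) * Real.sqrt (Λ / κv) :=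
          mul_le_mul_of_nonneg_right (by linarith) hS0
  refine ⟨hcB, hcK, fun y => ⟨hψB y, hψK y⟩, ?_, ?_⟩
  · intro a ha
    refine (hT hC hV ℂ X (BB G) (KK G) P g U R (3 / 4) hcB X b
      (fun c => dB G c *ᵥ psi P w (vir (BB G) P w)) V hV0 ?_ a ha).trans (hfin a ha)
    intro z hz
    refine le_trans ?_ (hVg z hz)
    have h1 := main H z hz (psi P w (vir (BB G) P w)) (fun y => G z y) hψB (fun y => rfl)
    have h2 : ∀ c, ‖(dB G c *ᵥ psi P w (vir (BB G) P w)) z‖ ^ 2 =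
        4 * (‖G z c‖ ^ 2 * ‖∑ y, G c y * (psi P w (vir (BB G) P w) y * G z y)‖ ^ 2) := by
      intro c
      have h3 : (dB G c *ᵥ psi P w (vir (BB G) P w)) z =
          -(2 * G z c) * ∑ y, G c y * (psi P w (vir (BB G) P w) y * G z y) := by
        rw [Matrix.mulVec, dotProduct, Finset.mul_sum]
        refine Finset.sum_congr rfl fun y _ => ?_
        unfold dB
        ring
      rw [h3, norm_mul, norm_neg, norm_mul, mul_pow, mul_pow]
      norm_num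
      ring
    rw [Finset.sum_congr rfl fun c _ => h2 c, ← Finset.mul_sum]
    linarith
  · intro a ha
    have h0 := (hT hC hV ℝ X (KK G) (KK G) P g U R (3 / 4) hcK X b
      (fun c => dK G c *ᵥ psi P w (vir (KK G) P w)) V hV0 ?_ a ha).trans (hfin a ha)
    · refine le_trans (le_of_eq ?_) h0
      refine Finset.sum_congr rfl fun c _ => ?_
      rw [Real.norm_eq_abs, sq_abs]
    intro z hz
    refine le_trans ?_ (hVg z hz)
    have h1 := main H z hz (fun y => ((psi P w (vir (KK G) P w) y : ℝ) : ℂ))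
      (fun y => (starRingEnd ℂ) (G z y)) (fun y => by
        rw [Complex.norm_real]
        exact hψK y) (fun y => by rw [RCLike.norm_conj]; rfl)
    have h2 : ∀ c, ‖(dK G c *ᵥ psi P w (vir (KK G) P w)) z‖ ^ 2 ≤
        4 * (‖G z c‖ ^ 2 * ‖∑ y, G c y * (((psi P w (vir (KK G) P w) y : ℝ) : ℂ) *
          (starRingEnd ℂ) (G z y))‖ ^ 2) := by
      intro c
      have h3 : (dK G c *ᵥ psi P w (vir (KK G) P w)) z =
          -(2 * (G z c * ∑ y, G c y * (((psi P w (vir (KK G) P w) y : ℝ) : ℂ) *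
            (starRingEnd ℂ) (G z y))).re) := by
        rw [Matrix.mulVec, dotProduct, Finset.mul_sum, Complex.re_sum, Finset.mul_sum,
          ← Finset.sum_neg_distrib]
        refine Finset.sum_congr rfl fun y _ => ?_
        unfold dK
        have h4 : G z c * (G c y * (((psi P w (vir (KK G) P w) y : ℝ) : ℂ) *
            (starRingEnd ℂ) (G z y))) =
            ((psi P w (vir (KK G) P w) y : ℝ) : ℂ) *
              ((starRingEnd ℂ) (G z y) * G z c * G c y) := by ring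
        rw [h4, Complex.re_ofReal_mul]
        ring
      rw [h3, norm_neg, Real.norm_eq_abs, sq_abs, mul_pow]
      have h5 := Complex.abs_re_le_norm (G z c * ∑ y, G c y *
        (((psi P w (vir (KK G) P w) y : ℝ) : ℂ) * (starRingEnd ℂ) (G z y)))
      rw [norm_mul] at h5
      have h6 := pow_le_pow_left₀ (abs_nonneg _) h5 2
      rw [sq_abs, mul_pow] at h6
      linarith
    refine (Finset.sum_le_sum fun c _ => h2 c).trans ?_
    rw [← Finset.mul_sum]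
    linarith

end Pool.Agent.ABY.H19
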